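import Pool.Graph.R_pool_sql_team_51e01f96.H.helper27_.Split2

set_option autoImplicit false

namespace Pool.Agent.KS6_77.PCp

open Set Filter Topology Cardinal TopologicalSpace
open Pool.Agent.H.helper27

/-- from `C_p(X)` to all powers -/
theorem powers {X : Type} [TopologicalSpace X] [T35Space X]
    (h : ∀ F : Set (Set {f : X → ℝ // Continuous f}), (∀ U ∈ F, IsOpen U ∧ U.Nonempty) →
      (∀ f, {U | U ∈ F ∧ f ∈ U}.Finite) → F.Countable) (ι : Type)
    (𝒰 : Set (Set (ι → {f : X → ℝ // Continuous f}))) (h1 : ∀ U ∈ 𝒰, IsOpen U ∧ U.Nonempty)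
    (h2 : ∀ y, {U | U ∈ 𝒰 ∧ y ∈ U}.Finite) : 𝒰.Countable := by
  classical
  obtain ⟨p, V, hV, hfin⟩ := PFC.reduce 𝒰 h1 h2
  have hc : ∀ c, {U : 𝒰 | p U = c}.Countable := by
    intro c
    have hF : (V '' {U : 𝒰 | p U = c}).Countable := by
      apply h
      · rintro _ ⟨U, -, rfl⟩
        exact hV U
      · intro f
        refine ((hfin c f).image V).subset ?_
        rintro _ ⟨⟨U, hU, rfl⟩, hf⟩
        exact ⟨U, ⟨hU, hf⟩, rfl⟩
    have hsub : {U : 𝒰 | p U = c} ⊆ ⋃ W ∈ V '' {U : 𝒰 | p U = c}, {U : 𝒰 | p U = c ∧ V U = W} :=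
      fun U hU => mem_biUnion (mem_image_of_mem V hU) ⟨hU, rfl⟩
    refine (hF.biUnion fun W hW => ?_).mono hsub
    obtain ⟨U0, hU0, rfl⟩ := hW
    obtain ⟨y, hy⟩ := (hV U0).2
    refine ((hfin c y).subset ?_).countable
    rintro U ⟨hU, hU2⟩
    exact ⟨hU, by rw [hU2]; exact hy⟩
  have : (⋃ c, {U : 𝒰 | p U = c}).Countable := countable_iUnion hc
  have h3 : (univ : Set 𝒰).Countable := this.mono fun U _ => mem_iUnion.2 ⟨p U, rfl⟩
  exact countable_coe_iff.1 (countable_univ_iff.1 h3)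

/-- in a compact space with `𝔠` clopen sets every base has at least `𝔠` members -/
theorem weight {X : Type} [TopologicalSpace X] [CompactSpace X] {T : Type} (hT : #T = continuum)
    (g : T → Set X) (hg : Function.Injective g) (hcl : ∀ t, IsClopen (g t))
    (B : Set (Set X)) (hB : IsTopologicalBasis B) : continuum ≤ #B := by
  classical
  by_contra hlt
  rw [not_le] at hlt
  have key : ∀ t, ∃ s : Finset B, g t = ⋃ b ∈ s, b.1 := by
    intro t
    have hc : IsCompact (g t) := (hcl t).1.isCompact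
    let S := {b : B // b.1 ⊆ g t}
    obtain ⟨s, hs⟩ := hc.elim_finite_subcover (fun b : S => b.1.1)
      (fun b => hB.isOpen b.1.2) (fun x hx => by
        obtain ⟨b, hb, hxb, hbg⟩ := hB.exists_subset_of_mem_open hx (hcl t).2
        exact mem_iUnion.2 ⟨⟨⟨b, hb⟩, hbg⟩, hxb⟩)
    refine ⟨s.image Subtype.val, Subset.antisymm ?_ ?_⟩
    · intro x hx
      obtain ⟨b, hb, hxb⟩ := mem_iUnion₂.1 (hs hx)
      exact mem_biUnion (Finset.mem_coe.2 (Finset.mem_image_of_mem _ hb)) hxb
    · refine iUnion₂_subset fun b hb => ?_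
      obtain ⟨b', -, rfl⟩ := Finset.mem_image.1 hb
      exact b'.2
  choose s hs using key
  have hinj : Function.Injective s := fun t u e => hg (by rw [hs t, hs u, e])
  have h1 : #T ≤ #(Finset B) := mk_le_of_injective hinj
  rw [hT] at h1
  rcases finite_or_infinite B with hf | hf
  · exact absurd (h1.trans_lt (lt_aleph0_of_finite _)) (not_lt.2 aleph0_le_continuum)
  · rw [mk_finset_of_infinite] at h1
    exact absurd hlt (not_lt.2 h1)

theorem main : ∃ (X : Type) (_ : TopologicalSpace X), CompactSpace X ∧ T2Space X ∧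
    TotallyDisconnectedSpace X ∧ FirstCountableTopology X ∧
    (∃ f : X → (ℕ → Bool), Continuous f ∧ ∀ t, (f ⁻¹' {t}).ncard = 2) ∧
    (∀ B : Set (Set X), IsTopologicalBasis B → continuum ≤ #B) ∧
    ∀ (ι : Type) (𝒰 : Set (Set (ι → {f : X → ℝ // Continuous f}))),
      (∀ U ∈ 𝒰, IsOpen U ∧ U.Nonempty) → (∀ y, {U | U ∈ 𝒰 ∧ y ∈ U}.Finite) → 𝒰.Countable := by
  classical
  obtain ⟨ρ, π, h, key⟩ := Split.build
  obtain ⟨c, hc⟩ := Split.exists_c ρ π h
  obtain ⟨h1, h2, h3, h4, h5⟩ := Split.final h hc key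
  have htd : TotallyDisconnectedSpace (Split.X c) :=
    ⟨(Split.embX hc).isTotallyDisconnected (isTotallyDisconnected_of_totallyDisconnectedSpace _)⟩
  refine ⟨Split.X c, inferInstance, h1, h2, htd, h3, ⟨fun x => x.1, Split.cont1 c, fun t => ?_⟩,
    ?_, ?_⟩
  · have : ((fun x : Split.X c => x.1) ⁻¹' {t}) = {((t, true) : Split.X c), (t, false)} := by
      ext ⟨s, i⟩
      constructor
      · rintro rfl
        cases i
        · exact Or.inr rfl
        · exact Or.inl rfl
      · rintro (e | e)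
        · exact (Prod.mk.inj e).1
        · exact (Prod.mk.inj e).1
    rw [this]
    exact ncard_pair (fun e => by simpa using (Prod.mk.inj e).2)
  · refine weight (T := Split.T) (by simp) (fun s => (fun x : Split.X c => c s x) ⁻¹' {true})
      (fun s t e => ?_) (fun s => (isClopen_discrete _).preimage (Split.cont2 c s))
    refine Split.c_inj h hc (funext fun x => ?_)
    have : c s x = true ↔ c t x = true := Set.ext_iff.mp e x
    exact Bool.eq_iff_iff.mpr this
  · refine powers fun F hF1 hF2 => ?_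
    let Φ : C(Split.X c, ℝ) → {f : Split.X c → ℝ // Continuous f} := fun f => ⟨f, f.2⟩
    have hΦ : Function.Surjective Φ := fun f => ⟨⟨f.1, f.2⟩, rfl⟩
    let F' : Set (Set C(Split.X c, ℝ)) := (fun U => Φ ⁻¹' U) '' F
    have hF' : F'.Countable := by
      refine h5 F' ?_ ?_
      · rintro _ ⟨U, hU, rfl⟩
        refine ⟨?_, (hF1 U hU).2.preimage hΦ⟩
        obtain ⟨O, hO, hO2⟩ := isOpen_induced_iff.1 (hF1 U hU).1
        refine isOpen_induced_iff.2 ⟨O, hO, ?_⟩
        rw [← hO2]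
        rfl
      · intro f
        refine ((hF2 (Φ f)).image (fun U => Φ ⁻¹' U)).subset ?_
        rintro _ ⟨⟨U, hU, rfl⟩, hf⟩
        exact ⟨U, ⟨hU, hf⟩, rfl⟩
    exact countable_of_injective_of_countable_image
      (fun U _ V _ e => hΦ.preimage_injective e) hF'

end Pool.Agent.KS6_77.PCp
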